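import Pool.Agent.H27.TM.TargetsL
import Pool.Agent.H31.SW.Tools

/-!
# Row RK of the board tm12: a reproducing kernel
-/

set_option autoImplicit false

open MeasureTheory Set Filter Complex
open scoped Topology FourierTransform

namespace Pool.Agent.H77.TMB.RK

open Pool.Agent.H31.SW (EE GG Pf norm_EE EE_add EE_zero continuous_EE EE_ne)
open Pool.Agent.H27.TM

/-- the integral over the square -/
noncomputable def hf (l : ℂ) : ℂ := ∫ u in Sh, EE (u * l)

theorem Sh_eq : Sh = measurableEquivRealProd ⁻¹'
    (Icc (-(1 / 2) : ℝ) (1 / 2) ×ˢ Icc (-(1 / 2) : ℝ) (1 / 2)) := by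
  ext u
  simp only [Sh, mem_ofPred_eq, mem_preimage, measurableEquivRealProd_apply, mem_prod, mem_Icc,
    abs_le]

theorem meas_Sh : MeasurableSet Sh := by
  rw [Sh_eq]
  exact measurableEquivRealProd.measurable (measurableSet_Icc.prod measurableSet_Icc)

theorem vol_Sh : volume Sh = 1 := by
  rw [Sh_eq, volume_preserving_equiv_real_prod.measure_preimage
    (measurableSet_Icc.prod measurableSet_Icc).nullMeasurableSet, Measure.volume_eq_prod,
    Measure.prod_prod, Real.volume_Icc]
  norm_num

theorem norm_Sh {u : ℂ} (hu : u ∈ Sh) : ‖u‖ ≤ 1 := by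
  have h := Complex.norm_le_abs_re_add_abs_im u
  have h1 : |u.re| ≤ 1 / 2 := hu.1
  have h2 : |u.im| ≤ 1 / 2 := hu.2
  linarith

theorem int_EE (l : ℂ) : IntegrableOn (fun u => EE (u * l)) Sh := by
  refine Measure.integrableOn_of_bounded (M := 1) (by rw [vol_Sh]; exact ENNReal.one_ne_top) ?_ ?_
  · exact (continuous_EE.comp (continuous_id.mul continuous_const)).aestronglyMeasurable
  · exact Filter.Eventually.of_forall fun u => (norm_EE _).le

theorem hf_fourier (l : ℂ) : hf l = 𝓕 (Sh.indicator (fun _ => (1 : ℂ)))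
    ((starRingEnd ℂ) l / (2 * Real.pi : ℝ)) := by
  rw [Real.fourier_eq', hf, ← integral_indicator meas_Sh]
  refine integral_congr_ae (Filter.Eventually.of_forall fun u => ?_)
  by_cases hu : u ∈ Sh
  · simp only [indicator_of_mem hu, smul_eq_mul, mul_one]
    rw [EE]
    congr 1
    congr 1
    have h1 : inner ℝ u ((starRingEnd ℂ) l / (2 * Real.pi : ℝ)) =
        (u * l).re / (2 * Real.pi) := by
      rw [Complex.inner, div_mul_eq_mul_div, Complex.div_ofReal_re]
      simp only [Complex.mul_re, Complex.conj_re, Complex.conj_im]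
      ring
    rw [h1, ← Complex.ofReal_neg]
    congr 1
    have := Real.pi_ne_zero
    field_simp
  · simp [indicator_of_notMem hu]

theorem hf_smooth (n : ℕ) : ContDiff ℝ n hf := by
  have h1 : ContDiff ℝ n (𝓕 (Sh.indicator (fun _ => (1 : ℂ)))) := by
    refine Real.contDiff_fourier (N := n) fun k _ => ?_
    have h2 : (fun v : ℂ => ‖v‖ ^ k * ‖Sh.indicator (fun _ => (1 : ℂ)) v‖) =
        Sh.indicator (fun v => ‖v‖ ^ k) := by
      ext v
      by_cases hv : v ∈ Sh
      · simp [indicator_of_mem hv]
      · simp [indicator_of_notMem hv]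
    rw [h2, integrable_indicator_iff meas_Sh]
    refine Measure.integrableOn_of_bounded (M := 1) (by rw [vol_Sh]; exact ENNReal.one_ne_top)
      ?_ ?_
    · exact (continuous_norm.pow k).aestronglyMeasurable
    · rw [ae_restrict_iff' meas_Sh]
      refine Filter.Eventually.of_forall fun u hu => ?_
      rw [norm_pow, norm_norm]
      exact pow_le_one₀ (norm_nonneg _) (norm_Sh hu)
  have h2 : hf = fun l => 𝓕 (Sh.indicator (fun _ => (1 : ℂ)))
      ((starRingEnd ℂ) l / (2 * Real.pi : ℝ)) := funext hf_fourier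
  rw [h2]
  refine h1.comp ?_
  exact (Complex.conjCLE.contDiff).div_const _

theorem EE_sub_one (z : ℂ) : ‖EE z - 1‖ ≤ ‖z‖ := by
  rw [EE, ← Complex.ofReal_neg, mul_comm]
  refine (Real.norm_exp_I_mul_ofReal_sub_one_le).trans ?_
  rw [norm_neg, Real.norm_eq_abs]
  exact Complex.abs_re_le_norm z

theorem hf_sub_one (l : ℂ) : ‖hf l - 1‖ ≤ ‖l‖ := by
  have h1 : (1 : ℂ) = ∫ _u in Sh, (1 : ℂ) := by
    rw [setIntegral_const, Measure.real, vol_Sh]
    simp
  have h2 : hf l - 1 = ∫ u in Sh, (EE (u * l) - 1) := by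
    rw [integral_sub (int_EE l) (integrableOn_const (by rw [vol_Sh]; exact ENNReal.one_ne_top)),
      ← h1, hf]
  rw [h2]
  have h3 := norm_setIntegral_le_of_norm_le_const (μ := volume) (s := Sh)
    (f := fun u => EE (u * l) - 1) (C := ‖l‖) (by rw [vol_Sh]; exact ENNReal.one_lt_top)
    fun u hu => (EE_sub_one _).trans (by
      rw [norm_mul]
      nlinarith [norm_Sh hu, norm_nonneg l, norm_nonneg u])
  refine h3.trans ?_
  rw [Measure.real, vol_Sh]
  simp

theorem hf_ne {x : ℂ} (hx : ‖x‖ ≤ 1 / 10) : hf (Complex.log (1 + x)) ≠ 0 := by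
  intro h
  have h1 := hf_sub_one (Complex.log (1 + x))
  rw [h, zero_sub, norm_neg, norm_one] at h1
  have h2 := Complex.norm_log_one_add_half_le_self (z := x) (by linarith)
  linarith

theorem pf_RK : M_RK := by
  intro p hp
  refine ⟨fun r x => p r x / hf (Complex.log (1 + x)), ⟨fun r n => ?_, fun r x hx => ?_⟩,
    fun r c w => ?_⟩
  · rw [contDiff_iff_contDiffAt]
    intro x
    by_cases hx : ‖x‖ < 1 / 100
    · have h1 : 1 + x ∈ slitPlane := by
        refine Or.inl ?_
        have := Complex.abs_re_le_norm x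
        have h3 := neg_abs_le x.re
        simp only [Complex.add_re, Complex.one_re]
        linarith
      have h2 : ContDiffAt ℝ n (fun x : ℂ => Complex.log (1 + x)) x := by
        have h3 : ContDiffAt ℝ n Complex.log (1 + x) :=
          (Complex.contDiffAt_log h1).restrict_scalars ℝ
        exact ContDiffAt.comp x h3 (contDiffAt_const.add contDiffAt_id)
      have h4 : ContDiffAt ℝ n (fun x : ℂ => hf (Complex.log (1 + x))) x :=
        ContDiffAt.comp (g := hf) (f := fun x : ℂ => Complex.log (1 + x)) x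
          (hf_smooth n).contDiffAt h2
      have h5 : ‖x‖ ≤ 1 / 10 := by linarith
      simp only [div_eq_mul_inv]
      exact (hp.1 r n).contDiffAt.mul (h4.inv (hf_ne h5))
    · have h1 : (fun x => p r x / hf (Complex.log (1 + x))) =ᶠ[𝓝 x] fun _ => 0 := by
        have h2 : {y : ℂ | 1 / 10000 < ‖y‖} ∈ 𝓝 x := by
          refine (isOpen_lt continuous_const continuous_norm).mem_nhds ?_
          simp only [mem_ofPred_eq]
          linarith [not_lt.1 hx]
        filter_upwards [h2] with y hy
        rw [hp.2 r y hy, zero_div]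
      exact contDiffAt_const.congr_of_eventuallyEq h1
  · simp only [hp.2 r x hx, zero_div]
  · have h1 : (1 : ℂ) + (w - 1) = w := by ring
    simp only [GG, h1]
    have h2 : ∀ u : ℂ, EE ((c + u) * Complex.log w) * (p r (w - 1) / hf (Complex.log w)) =
        (EE (c * Complex.log w) * (p r (w - 1) / hf (Complex.log w))) *
          EE (u * Complex.log w) := by
      intro u
      rw [add_mul, EE_add]
      ring
    simp only [h2]
    rw [integral_const_mul]
    by_cases hw : 1 / 10000 < ‖w - 1‖
    · rw [hp.2 r _ hw]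
      simp
    · have h3 := hf_ne (x := w - 1) (by linarith [not_lt.1 hw])
      rw [h1] at h3
      have h4 : ∫ u in Sh, EE (u * Complex.log w) = hf (Complex.log w) := rfl
      rw [h4]
      field_simp

end Pool.Agent.H77.TMB.RK
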